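import Mathlib

/-!
# Odd integers with perfect deficiency at most 10

`815634435 = 3 * 5 * 7 * 11 * 547 * 1291` is odd, larger than `1155`, and its perfect deficiency is `6`.
-/

set_option autoImplicit false

namespace Pool.Agent.Results.MP_7acd66_nt.OddLarger

/-- One step: subtract the divisor `d` from the current remainder `r` if `d ≤ r`, else keep `r`. -/
def step (r d : ℕ) : ℕ := if d ≤ r then r - d else r

/-- The perfect deficiency of `n`: start with the remainder `n` and run through the divisors of `n` in
increasing order, subtracting each one that is at most the current remainder. -/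
def pd (n : ℕ) : ℕ := (n.divisors.sort (· ≤ ·)).foldl step n

theorem foldl_step : ∀ (l : List ℕ) (r : ℕ), l.sum ≤ r → l.foldl step r = r - l.sum := by
  intro l
  induction l with
  | nil => intro r _; simp
  | cons a l ih =>
    intro r hr
    rw [List.sum_cons] at hr
    rw [List.foldl_cons, List.sum_cons, step, if_pos (by omega), ih _ (by omega)]
    omega

theorem sort_divisors {n : ℕ} (hn : 0 < n) :
    n.divisors.sort (· ≤ ·) = n.properDivisors.sort (· ≤ ·) ++ [n] := by
  have h1 : (n.properDivisors.sort (· ≤ ·) ++ [n]).toFinset = n.divisors := by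
    ext x
    rw [List.mem_toFinset, List.mem_append, Finset.mem_sort, List.mem_singleton,
      ← Nat.insert_self_properDivisors hn.ne', Finset.mem_insert, or_comm]
  have h2 : (n.properDivisors.sort (· ≤ ·) ++ [n]).Pairwise (· ≤ ·) := by
    rw [List.pairwise_append]
    refine ⟨Finset.pairwise_sort _ _, List.pairwise_singleton _ _, ?_⟩
    intro a ha b hb
    rw [Finset.mem_sort] at ha
    rw [List.mem_singleton] at hb
    subst hb
    exact (Nat.mem_properDivisors.1 ha).2.le
  have h3 : (n.properDivisors.sort (· ≤ ·) ++ [n]).Nodup := by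
    rw [List.nodup_append]
    refine ⟨Finset.sort_nodup _ _, List.nodup_singleton _, ?_⟩
    intro a ha b hb
    rw [Finset.mem_sort] at ha
    rw [List.mem_singleton] at hb
    subst hb
    exact (Nat.mem_properDivisors.1 ha).2.ne
  rw [← h1]
  exact (List.toFinset_sort (· ≤ ·) h3).2 h2

theorem sum_sort (s : Finset ℕ) : (s.sort (· ≤ ·)).sum = ∑ d ∈ s, d := by
  have h1 : ((s.sort (· ≤ ·) : List ℕ) : Multiset ℕ) = s.val := Finset.sort_eq _ _
  rw [Finset.sum_eq_multiset_sum, Multiset.map_id', ← h1, Multiset.sum_coe]

theorem pd_of_deficient {n : ℕ} (hn : 0 < n) (h0 : 0 < ∑ d ∈ n.properDivisors, d)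
    (h : ∑ d ∈ n.properDivisors, d ≤ n) : pd n = n - ∑ d ∈ n.properDivisors, d := by
  have hs := sum_sort n.properDivisors
  have h1 : (n.properDivisors.sort (· ≤ ·)).foldl step n = n - ∑ d ∈ n.properDivisors, d := by
    rw [foldl_step _ _ (by omega), hs]
  unfold pd
  rw [sort_divisors hn, List.foldl_append, h1, List.foldl_cons, List.foldl_nil, step,
    if_neg (by omega)]

theorem sum_divisors : ∑ d ∈ (815634435 : ℕ).divisors, d = 1631268864 := by
  have h : (815634435 : ℕ) = 3 * (5 * (7 * (11 * (547 * 1291)))) := by norm_num
  have p3 : Nat.Prime 3 := by norm_num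
  have p5 : Nat.Prime 5 := by norm_num
  have p7 : Nat.Prime 7 := by norm_num
  have p11 : Nat.Prime 11 := by norm_num
  have p547 : Nat.Prime 547 := by norm_num
  have p1291 : Nat.Prime 1291 := by norm_num
  rw [h, Nat.Coprime.sum_divisors_mul (by norm_num), Nat.Coprime.sum_divisors_mul (by norm_num),
    Nat.Coprime.sum_divisors_mul (by norm_num), Nat.Coprime.sum_divisors_mul (by norm_num),
    Nat.Coprime.sum_divisors_mul (by norm_num), p3.sum_divisors, p5.sum_divisors, p7.sum_divisors,
    p11.sum_divisors, p547.sum_divisors, p1291.sum_divisors]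
  norm_num

theorem pd_815634435 : pd 815634435 = 6 := by
  have h1 := Nat.sum_divisors_eq_sum_properDivisors_add_self (n := 815634435)
  rw [sum_divisors] at h1
  rw [pd_of_deficient (by norm_num) (by omega) (by omega)]
  omega

/-- `1155` is not the largest odd positive integer with perfect deficiency at most `10`: the odd number
`815634435` has perfect deficiency `6`. -/
theorem result : (¬ ∀ n : ℕ, 1155 < n → pd n ≤ 10 → Even n) ∧ pd 815634435 = 6 := by
  refine ⟨fun h => ?_, pd_815634435⟩
  have := h 815634435 (by norm_num) (by rw [pd_815634435]; norm_num)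
  exact absurd this (by decide)

end Pool.Agent.Results.MP_7acd66_nt.OddLarger
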